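import Pool.Agent.P8H65.SnccExample

/-!
# A shortest separating non-contractible cycle that starts with a doubled simple loop

There is a triangulation of the closed oriented surface of genus 2 (10 vertices, 36 edges, 24
triangles) whose shortest separating non-contractible cycles have length 7, one of them being
`γ γ ρ₁ δ₁ ρ₂ δ₂ ρ₃`, where `γ, δ₁, δ₂` are loops that bound a pair of pants and `ρ₁ ρ₂ ρ₃` is a
triangle-shaped cycle homotopic to the inverse of `γ`.
-/

namespace Pool.Agent.Results.MP_4a4360_co.DoubledLoop

open Pool.Agent.P8H65.Sncc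

theorem result :
    ¬ ∀ (T : Triangulation) (C : List T.Dart), T.IsShortestSNCC C →
      ¬ ∃ γ C' : List T.Dart, T.IsSimpleCycle γ ∧ T.IsPath C' ∧ C = γ ++ γ ++ C' := fun h =>
  h ex (gam ++ gam ++ rest) C_shortest ⟨gam, rest, gam_simple, rest_path, rfl⟩

end Pool.Agent.Results.MP_4a4360_co.DoubledLoop
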